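import Pool.Agent.K3h88.LCM.Stm
import Pool.Agent.Helper133.BUProd

/-!
# A Borsuk-Ulam theorem for products of three-dimensional spheres
-/

set_option autoImplicit false

namespace Pool.Agent.K3h83.LCM

open Quaternion Pool.Agent.K3h88.LCM Pool.Agent.Helper133.BT Pool.Agent.Helper133.BU

/-- the quaternion with the coordinates `y` -/
noncomputable def qv (y : Fin 4 → ℝ) : ℍ[ℝ] :=
  Quaternion.linearIsometryEquivTuple.symm (WithLp.toLp 2 y)

theorem qv_continuous : Continuous qv := by
  unfold qv
  exact Quaternion.linearIsometryEquivTuple.symm.continuous.comp (PiLp.continuous_toLp 2 _)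

theorem qv_neg (y : Fin 4 → ℝ) : qv (-y) = -qv y := by
  unfold qv
  rw [← map_neg]
  rfl

theorem qv_ne {y : Fin 4 → ℝ} (h : y ≠ 0) : qv y ≠ 0 := by
  intro h0
  unfold qv at h0
  rw [map_eq_zero_iff _ Quaternion.linearIsometryEquivTuple.symm.injective] at h0
  apply h
  have := congrArg (fun z : EuclideanSpace ℝ (Fin 4) => z.ofLp) h0
  simpa using this

open Classical in
/-- the unit quaternion in the direction of `y`, with the junk value `1` at `0` -/
noncomputable def nr (y : Fin 4 → ℝ) : G :=
  if h : qv y ≠ 0 then ⟨‖qv y‖⁻¹ • qv y, by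
    rw [mem_sphere_zero_iff_norm, norm_smul, norm_inv, norm_norm]
    exact inv_mul_cancel₀ (norm_ne_zero_iff.mpr h)⟩ else 1

theorem nr_val {y : Fin 4 → ℝ} (h : y ≠ 0) : (nr y : ℍ[ℝ]) = ‖qv y‖⁻¹ • qv y := by
  unfold nr
  rw [dif_pos (qv_ne h)]

theorem nr_neg {y : Fin 4 → ℝ} (h : y ≠ 0) : nr (-y) = -nr y := by
  apply Subtype.ext
  rw [nr_val (neg_ne_zero.mpr h), qv_neg, norm_neg, smul_neg]
  change _ = -((nr y : G) : ℍ[ℝ])
  rw [nr_val h]

theorem nr_continuousOn : ContinuousOn nr {y | y ≠ 0} := by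
  rw [Topology.IsInducing.subtypeVal.continuousOn_iff]
  have : ContinuousOn (fun y : Fin 4 → ℝ => ‖qv y‖⁻¹ • qv y) {y | y ≠ 0} := by
    have h1 : ContinuousOn (fun y : Fin 4 → ℝ => ‖qv y‖⁻¹) {y | y ≠ 0} := by
      apply ContinuousOn.inv₀ qv_continuous.norm.continuousOn
      intro y hy
      exact norm_ne_zero_iff.mpr (qv_ne hy)
    exact h1.smul qv_continuous.continuousOn
  refine this.congr ?_
  intro y hy
  exact nr_val hy

theorem K_ne {y : Fin 4 → ℝ} (h : y ∈ K 3) : y ≠ 0 := by
  rintro rfl
  simp [K] at h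

/-- the three imaginary parts -/
noncomputable def im3 (r : ℕ) (q : ℍ[ℝ]) : ℝ := if r = 0 then q.imI else if r = 1 then q.imJ else q.imK

theorem im3_continuous (r : ℕ) : Continuous (im3 r) := by
  unfold im3
  split_ifs
  · exact Quaternion.continuous_imI
  · exact Quaternion.continuous_imJ
  · exact Quaternion.continuous_imK

theorem im3_neg (r : ℕ) (q : ℍ[ℝ]) : im3 r (-q) = -im3 r q := by
  unfold im3
  split_ifs <;> simp

theorem im3_zero {q : ℍ[ℝ]} (h : ∀ r < 3, im3 r q = 0) (hq : ‖q‖ = 1) : q = 1 ∨ q = -1 := by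
  have h0 : q.imI = 0 := by simpa [im3] using h 0 (by norm_num)
  have h1 : q.imJ = 0 := by simpa [im3] using h 1 (by norm_num)
  have h2 : q.imK = 0 := by simpa [im3] using h 2 (by norm_num)
  have hn : Quaternion.normSq q = 1 := by
    rw [Quaternion.normSq_eq_norm_mul_self, hq, one_mul]
  rw [Quaternion.normSq_def', h0, h1, h2] at hn
  have h3 : (q.re - 1) * (q.re + 1) = 0 := by linear_combination hn
  rcases mul_eq_zero.mp h3 with h4 | h4
  · left
    apply Quaternion.ext <;> simp [h0, h1, h2]
    linarith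
  · right
    apply Quaternion.ext <;> simp [h0, h1, h2]
    linarith

/-- the vector of unit quaternions -/
noncomputable def xx (n : ℕ) (v : Om (fun _ => 3)) : Fin n → G := fun k => nr (v (k : ℕ))

theorem xx_flp (n : ℕ) (k : Fin n) {v : Om (fun _ => 3)} (hv : v ∈ PP (fun _ => 3)) :
    xx n (flp (fun _ => 3) k v) = Function.update (xx n v) k (-(xx n v k)) := by
  funext l
  by_cases h : l = k
  · subst h
    simp only [xx, flp, Function.update_self]
    exact nr_neg (K_ne (hv _))
  · have h' : (l : ℕ) ≠ (k : ℕ) := fun e => h (Fin.ext e)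
    rw [Function.update_of_ne h]
    simp only [xx, flp]
    rw [Function.update_of_ne h']

theorem xx_continuousOn (n : ℕ) : ContinuousOn (xx n) (PP (fun _ => 3)) := by
  rw [continuousOn_pi]
  intro k
  refine nr_continuousOn.comp (continuous_apply (k : ℕ)).continuousOn ?_
  intro v hv
  exact K_ne (hv k)

/-- brick L9 -/
theorem l9 : StmL9 := by
  intro n Q hQ hpar
  obtain ⟨v, hv, hz⟩ := triangular (fun _ => 3) (fun _ => by norm_num) n
    (fun i _ k => if i = k then 1 else 0) (fun i r => by simp)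
    (fun i r k h => by simp [h.ne])
    (fun i r v => if h : i < n then im3 r ((Q (xx n v) ⟨i, h⟩ : G) : ℍ[ℝ]) else 0)
    (by
      intro i r
      by_cases h : i < n
      · simp only [h, dite_true]
        apply (im3_continuous r).comp_continuousOn
        apply continuous_subtype_val.comp_continuousOn
        apply (continuous_apply (⟨i, h⟩ : Fin n)).comp_continuousOn
        exact hQ.comp_continuousOn (xx_continuousOn n)
      · simp only [h, dite_false]
        exact continuousOn_const)
    (by
      intro i hi r hr k hk v hv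
      simp only [hi, dite_true]
      rw [xx_flp n ⟨k, hk⟩ hv, hpar]
      by_cases h : i = k
      · subst h
        simp only [if_true, sgn]
        change im3 r (-((Q (xx n v) ⟨i, hi⟩ : G) : ℍ[ℝ])) = _
        rw [im3_neg]
        simp
      · have h' : (⟨i, hi⟩ : Fin n) ≠ ⟨k, hk⟩ := fun e => h (congrArg Fin.val e)
        simp [h, sgn])
  refine ⟨xx n v, ?_⟩
  intro i
  have h1 : ∀ r < 3, im3 r ((Q (xx n v) i : G) : ℍ[ℝ]) = 0 := by
    intro r hr
    have := hz i i.2 r hr
    simpa using this
  have h2 : ‖((Q (xx n v) i : G) : ℍ[ℝ])‖ = 1 := by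
    exact mem_sphere_zero_iff_norm.mp (Q (xx n v) i).2
  rcases im3_zero h1 h2 with h | h
  · left
    exact Subtype.ext h
  · right
    exact Subtype.ext h

end Pool.Agent.K3h83.LCM
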